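import Pool.Agent.Helper19.HN.St

/-! # HN, module COH: definable sequences of subsets cohere -/

namespace Pool.Agent.Helper71.HN.COH

open Ordinal Cardinal ZFSet Order Pool.Agent.Helper73.HODC Pool.Agent.Helper73.HM
open Pool.Agent.Helper73.HE Pool.Agent.Helper73.HU Pool.Agent.Helper19.HN

theorem coh : StCOH := by
  intro c A R hc hA hR
  have hc' : ℵ₀ < c := by
    have h := hA.cof
    rwa [hc.cof_ord] at h
  have hD : DPs {d | AE c.ord A (fun i => R i d)} :=
    dp_AEc (Q := fun a v => R a (v 0).rank) hA.dps hR c.ord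
  refine ⟨ordSet c.ord {d | AE c.ord A (fun i => R i d)},
    mem_hodPow.2 ⟨ordSet_sub _ _, od_ordSet hD _⟩, ?_⟩
  refine AE_diag hc hc'
    (Q := fun d i => R i d ↔ d ∈ st (ordSet c.ord {d | AE c.ord A (fun i => R i d)}))
    fun d hd => ?_
  have hdp : DP (fun v => R (v 0).rank d) :=
    dp_subst_at (Q := fun d v => R (v 0).rank d) (hR.rename (fun n => if n = 0 then 1 else 0)) d
  rcases hA.dec (Q := fun i => R i d) hdp with h | h
  · refine AE.mono h fun i _ _ hi => ?_
    rw [mem_st_ordSet]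
    exact ⟨fun _ => ⟨hd, h⟩, fun _ => hi⟩
  · refine AE.mono h fun i _ _ hi => ?_
    rw [mem_st_ordSet]
    exact ⟨fun h1 => absurd h1 hi, fun h1 => absurd h1.2 ((hA.not_AE (Q := fun i => R i d) hdp).2 h)⟩

end Pool.Agent.Helper71.HN.COH
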